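import Pool.Agent.V5helper30.PM.Main

/-!
A regular graded skew Clifford algebra of global dimension four with exactly 2 point modules,
over every algebraically closed field of characteristic different from two and five.
-/

universe u

namespace Pool.Agent.Results.MP_a6a2ff_al.TwoPoints

open Pool.Agent.W506.PM

/-- Over every algebraically closed field `k` with `2 ≠ 0` and `5 ≠ 0` there are `mu` and
mu-symmetric matrices `M_1, ..., M_4` such that `A(mu; M_1, ..., M_4)` is a graded skew Clifford
algebra, is a quadratic algebra, is Artin-Schelter regular of global dimension four, and has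
exactly 2 isomorphism classes of point modules. -/
theorem result (k : Type u) [Field k] [IsAlgClosed k] (h2 : (2 : k) ≠ 0) (h5 : (5 : k) ≠ 0) :
    ∃ (μ : Fin 4 → Fin 4 → k) (M : Fin 4 → Matrix (Fin 4) (Fin 4) k),
      IsGSCA k μ M ∧ IsQuadratic (ggr k μ M) ∧ IsASRegular (ggr k μ M) 4 ∧
      Nat.card (PointClasses (ggr k μ M)) = 2 :=
  Pool.Agent.V5helper30.PM.main k h2 h5

end Pool.Agent.Results.MP_a6a2ff_al.TwoPoints
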